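import Mathlib

set_option linter.all false

/-!
# MP_cf0832_co : theta-graph embedding bounds do not imply the path-moment bounds
-/

open MeasureTheory Filter Topology Asymptotics

open scoped ENNReal

namespace Pool.Agent.Results.MP_cf0832_co.ThetaVsMoments

/-! ### Definitions -/

/-- `emb F G` : number of injective homomorphisms from `F` to `G`. -/
noncomputable def emb {W V : Type} (F : SimpleGraph W) (G : SimpleGraph V) : ℕ :=
  Nat.card {f : W → V // Function.Injective f ∧ ∀ a b, F.Adj a b → G.Adj (f a) (f b)}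

/-- `s_p(F, G) = emb(F,G) / (n_{(|F|)} p^{e(F)})` for a graph `G` on `n` vertices. -/
noncomputable def sp {W : Type} [Fintype W] (F : SimpleGraph W) {n : ℕ} (p : ℝ)
    (G : SimpleGraph (Fin n)) : ℝ :=
  (emb F G : ℝ) / ((n.descFactorial (Fintype.card W) : ℝ) * p ^ F.edgeSet.ncard)

/-- `paths G t u v` : number of paths of length `t` from `u` to `v`, i.e. of sequences of distinct
vertices `u = x_0, …, x_t = v` with consecutive vertices adjacent. -/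
noncomputable def paths {V : Type} (G : SimpleGraph V) (t : ℕ) (u v : V) : ℕ :=
  Nat.card {x : Fin (t + 1) → V // Function.Injective x ∧ x 0 = u ∧ x (Fin.last t) = v ∧
    ∀ i : Fin t, G.Adj (x i.castSucc) (x i.succ)}

/-- The `j`-th vertex (`0 ≤ j ≤ ℓ`) of the `i`-th path of the theta graph `H_{k,ℓ}`. -/
def pt (k ℓ : ℕ) (i : Fin k) (j : ℕ) : Fin 2 ⊕ (Fin k × Fin (ℓ - 1)) :=
  if j = 0 then Sum.inl 0
  else if h : j - 1 < ℓ - 1 then Sum.inr (i, ⟨j - 1, h⟩) else Sum.inl 1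

/-- The theta graph `H_{k,ℓ}`: `k` internally disjoint paths of length `ℓ` joining the
vertices `inl 0` and `inl 1`. -/
def theta (k ℓ : ℕ) : SimpleGraph (Fin 2 ⊕ (Fin k × Fin (ℓ - 1))) :=
  SimpleGraph.fromRel fun a b => ∃ (i : Fin k) (j : ℕ), j < ℓ ∧ a = pt k ℓ i j ∧
    b = pt k ℓ i (j + 1)

/-- the kernel `κ_{G}` : `1/p` if the vertices `⌈nx⌉`, `⌈ny⌉` are adjacent and `0` otherwise
(the element `i : Fin n` is the vertex number `i + 1`). -/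
noncomputable def kerG {n : ℕ} (p : ℝ) (G : SimpleGraph (Fin n)) (x y : unitInterval) : ℝ :=
  open Classical in
  if ∃ i j : Fin n, ⌈(n : ℝ) * x⌉ = ((i : ℕ) : ℤ) + 1 ∧ ⌈(n : ℝ) * y⌉ = ((j : ℕ) : ℤ) + 1 ∧
    G.Adj i j then 1 / p else 0

/-- The cut norm `sup_{S,T} |∫_{S×T} W|`, as an extended nonnegative number. -/
noncomputable def cutNorm (W : unitInterval → unitInterval → ℝ) : ℝ≥0∞ :=
  ⨆ (S : Set unitInterval) (_ : MeasurableSet S) (T : Set unitInterval) (_ : MeasurableSet T),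
    ‖∫ z in S ×ˢ T, W z.1 z.2‖ₑ

/-- `d_cut(G, κ)`: the infimum over the measure-preserving bijections `φ` of `[0,1]`
of the cut norm of `κ_G - κ^φ`. -/
noncomputable def dcut {n : ℕ} (p : ℝ) (G : SimpleGraph (Fin n))
    (κ : unitInterval → unitInterval → ℝ) : ℝ≥0∞ :=
  ⨅ (φ : unitInterval ≃ᵐ unitInterval) (_ : MeasurePreserving φ volume volume),
    cutNorm fun x y => kerG p G x y - κ (φ x) (φ y)

/-- Kernels with values in `[0,C]`. -/
def IsKernel (C : ℝ) (κ : unitInterval → unitInterval → ℝ) : Prop :=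
  Measurable (Function.uncurry κ) ∧ (∀ x y, κ x y = κ y x) ∧ ∀ x y, 0 ≤ κ x y ∧ κ x y ≤ C

/-- (A): `sup_n s_p(T, G_n) < ∞` for every finite tree `T`. -/
def CondA (p : ℕ → ℝ) (G : ∀ n, SimpleGraph (Fin n)) : Prop :=
  ∀ (W : Type) [Fintype W] (T : SimpleGraph W), T.IsTree →
    BddAbove (Set.range fun n => sp T (p n) (G n))

/-- `∑_u ∑_{v ≠ u} p_t(u,v)^k`. -/
noncomputable def moment {n : ℕ} (G : SimpleGraph (Fin n)) (t k : ℕ) : ℝ :=
  ∑ u : Fin n, ∑ v ∈ Finset.univ.erase u, (paths G t u v : ℝ) ^ k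

/-- (B). -/
def CondB (ℓ : ℕ) (p : ℕ → ℝ) (G : ∀ n, SimpleGraph (Fin n)) : Prop :=
  (fun n => moment (G n) (ℓ - 1) 2) =O[atTop]
    fun n => (n : ℝ) ^ (2 * ℓ - 2) * p n ^ (2 * ℓ - 2)

/-- (C). -/
def CondC (C : ℝ) (p : ℕ → ℝ) (G : ∀ n, SimpleGraph (Fin n)) : Prop :=
  ∃ κ : unitInterval → unitInterval → ℝ, IsKernel C κ ∧
    Tendsto (fun n => dcut (p n) (G n) κ) atTop (𝓝 0)

/-- (D). -/
def CondD (ℓ : ℕ) (p : ℕ → ℝ) (G : ∀ n, SimpleGraph (Fin n)) : Prop :=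
  ∀ k : ℕ, 1 ≤ k → (fun n => moment (G n) ℓ k) =O[atTop]
    fun n => (n : ℝ) ^ (2 + k * (ℓ - 1)) * p n ^ (k * ℓ)

/-- the theta graph counts are bounded. -/
def CondTheta (ℓ : ℕ) (p : ℕ → ℝ) (G : ∀ n, SimpleGraph (Fin n)) : Prop :=
  ∀ k : ℕ, 1 ≤ k → (fun n => sp (theta k ℓ) (p n) (G n)) =O[atTop] fun _ => (1 : ℝ)

/-- The affirmative form of Q1. -/
def Q1 : Prop :=
  ∀ (C : ℝ), 0 < C → ∀ ℓ : ℕ, 3 ≤ ℓ → ∀ (p : ℕ → ℝ), (∀ n, 0 < p n ∧ p n ≤ 1) →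
    ∀ G : (n : ℕ) → SimpleGraph (Fin n),
      CondA p G → CondB ℓ p G → CondC C p G → CondTheta ℓ p G → CondD ℓ p G

/-! ### The construction -/

lemma exr (ℓ : ℕ) (hℓ : 3 ≤ ℓ) (n : ℕ) : ∃ r, 1 ≤ r ∧ n ≤ r ^ ℓ :=
  ⟨n + 1, by omega, by
    calc n ≤ (n + 1) ^ 1 := by rw [pow_one]; omega
      _ ≤ (n + 1) ^ ℓ := Nat.pow_le_pow_right (by omega) (by omega)⟩

open Classical in
/-- the least `r ≥ 1` with `n ≤ r^ℓ` -/
noncomputable def rt (ℓ n : ℕ) : ℕ := if hℓ : 3 ≤ ℓ then Nat.find (exr ℓ hℓ n) else 1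

lemma rt_pos {ℓ : ℕ} (hℓ : 3 ≤ ℓ) (n : ℕ) : 1 ≤ rt ℓ n := by
  classical
  rw [rt, dif_pos hℓ]; exact (Nat.find_spec (exr ℓ hℓ n)).1

lemma le_rt {ℓ : ℕ} (hℓ : 3 ≤ ℓ) (n : ℕ) : n ≤ rt ℓ n ^ ℓ := by
  classical
  rw [rt, dif_pos hℓ]; exact (Nat.find_spec (exr ℓ hℓ n)).2

lemma rt_le {ℓ : ℕ} (hℓ : 3 ≤ ℓ) {n r : ℕ} (h1 : 1 ≤ r) (h2 : n ≤ r ^ ℓ) : rt ℓ n ≤ r := by
  classical
  rw [rt, dif_pos hℓ]; exact Nat.find_min' _ ⟨h1, h2⟩

lemma rt_pow {ℓ : ℕ} (hℓ : 3 ≤ ℓ) {r : ℕ} (h1 : 1 ≤ r) : rt ℓ (r ^ ℓ) = r := by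
  refine le_antisymm (rt_le hℓ h1 le_rfl) ?_
  exact (Nat.pow_le_pow_iff_left (by omega)).1 (le_rt hℓ (r ^ ℓ))

lemma rt_pow_le {ℓ : ℕ} (hℓ : 3 ≤ ℓ) {n : ℕ} (hn : 1 ≤ n) : rt ℓ n ^ ℓ ≤ 2 ^ ℓ * n := by
  by_cases h : rt ℓ n = 1
  · rw [h, one_pow]
    exact Nat.one_le_iff_ne_zero.2 (by positivity)
  · have h1 := rt_pos hℓ n
    have h2 : ¬ n ≤ (rt ℓ n - 1) ^ ℓ := by
      intro hc
      have := rt_le hℓ (by omega : 1 ≤ rt ℓ n - 1) hc
      omega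
    calc rt ℓ n ^ ℓ ≤ (2 * (rt ℓ n - 1)) ^ ℓ := Nat.pow_le_pow_left (by omega) _
      _ = 2 ^ ℓ * (rt ℓ n - 1) ^ ℓ := by rw [mul_pow]
      _ ≤ 2 ^ ℓ * n := by gcongr; omega

/-- the normalising function -/
noncomputable def pp (ℓ n : ℕ) : ℝ := 1 / (rt ℓ n : ℝ) ^ (ℓ - 1)

lemma pp_pos {ℓ : ℕ} (hℓ : 3 ≤ ℓ) (n : ℕ) : 0 < pp ℓ n := by
  have : (0 : ℝ) < rt ℓ n := by exact_mod_cast rt_pos hℓ n
  unfold pp; positivity

lemma pp_le {ℓ : ℕ} (hℓ : 3 ≤ ℓ) (n : ℕ) : pp ℓ n ≤ 1 := by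
  have : (1 : ℝ) ≤ rt ℓ n := by exact_mod_cast rt_pos hℓ n
  unfold pp
  rw [div_le_one (by positivity)]
  exact one_le_pow₀ this

lemma rt_le_np {ℓ : ℕ} (hℓ : 3 ≤ ℓ) {n : ℕ} (hn : 1 ≤ n) :
    (rt ℓ n : ℝ) ≤ 2 ^ ℓ * (n * pp ℓ n) := by
  have h0 : (0 : ℝ) < rt ℓ n := by exact_mod_cast rt_pos hℓ n
  have h1 : (rt ℓ n : ℝ) ^ ℓ ≤ 2 ^ ℓ * n := by exact_mod_cast rt_pow_le hℓ hn
  unfold pp
  rw [mul_one_div, ← mul_div_assoc, le_div_iff₀ (by positivity)]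
  calc (rt ℓ n : ℝ) * rt ℓ n ^ (ℓ - 1) = rt ℓ n ^ ℓ := by
        rw [← pow_succ']; congr 1; omega
    _ ≤ _ := h1

/-- the graph: `v = 0` and `w_0 = 1` are joined to the `y`'s (`ℓ ≤ y < ℓ + r`), and a path
`1, 2, …, ℓ - 1` is attached at `1`. -/
def GG (ℓ r n : ℕ) : SimpleGraph (Fin n) :=
  SimpleGraph.fromRel fun i j : Fin n =>
    ((i : ℕ) ≤ 1 ∧ ℓ ≤ (j : ℕ) ∧ (j : ℕ) < ℓ + r) ∨
      (1 ≤ (i : ℕ) ∧ (i : ℕ) + 2 ≤ ℓ ∧ (j : ℕ) = i + 1)

lemma GG_adj {ℓ r n : ℕ} (hℓ : 3 ≤ ℓ) {a b : Fin n} (h : (GG ℓ r n).Adj a b) :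
    ((a : ℕ) < ℓ - 1 ∨ (b : ℕ) < ℓ - 1) ∧ (a : ℕ) < ℓ + r ∧ (b : ℕ) < ℓ + r := by
  rw [GG, SimpleGraph.fromRel_adj] at h
  omega


/-! ### Counting -/

/-- functions with all values `< M` and at least one value `< c`. -/
lemma count_le {W : Type} [Fintype W] (n M c : ℕ) :
    Nat.card {f : W → Fin n // (∀ a, (f a : ℕ) < M) ∧ ∃ a, (f a : ℕ) < c} ≤
      Fintype.card W * c * M ^ (Fintype.card W - 1) := by
  classical
  have key : ∀ m : ℕ, (Finset.univ.filter fun x : Fin n => (x : ℕ) < m).card ≤ m := by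
    intro m
    calc _ ≤ (Finset.range m).card := by
          refine Finset.card_le_card_of_injOn (fun x : Fin n => (x : ℕ)) ?_ ?_
          · intro x hx
            simpa using hx
          · intro x _ y _ h
            exact Fin.ext h
      _ = m := Finset.card_range m
  rw [Nat.card_eq_fintype_card, Fintype.card_subtype]
  have hsub : (Finset.univ.filter fun f : W → Fin n => (∀ a, (f a : ℕ) < M) ∧ ∃ a, (f a : ℕ) < c) ⊆
      Finset.univ.biUnion fun a : W => Fintype.piFinset fun b : W =>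
        if b = a then (Finset.univ.filter fun x : Fin n => (x : ℕ) < c)
        else (Finset.univ.filter fun x : Fin n => (x : ℕ) < M) := by
    intro f hf
    rw [Finset.mem_filter] at hf
    obtain ⟨-, h1, a, ha⟩ := hf
    rw [Finset.mem_biUnion]
    refine ⟨a, Finset.mem_univ _, ?_⟩
    rw [Fintype.mem_piFinset]
    intro b
    by_cases hb : b = a
    · subst hb; simp [ha]
    · simp [hb, h1 b]
  calc _ ≤ _ := Finset.card_le_card hsub
    _ ≤ ∑ a : W, (Fintype.piFinset fun b : W =>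
        if b = a then (Finset.univ.filter fun x : Fin n => (x : ℕ) < c)
        else (Finset.univ.filter fun x : Fin n => (x : ℕ) < M)).card := Finset.card_biUnion_le
    _ ≤ ∑ a : W, c * M ^ (Fintype.card W - 1) := by
        refine Finset.sum_le_sum fun a _ => ?_
        rw [Fintype.card_piFinset]
        rw [← Finset.mul_prod_erase Finset.univ _ (Finset.mem_univ a)]
        refine Nat.mul_le_mul ?_ ?_
        · simp only [if_true]; exact key c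
        · calc _ ≤ ∏ b ∈ Finset.univ.erase a, M := by
                refine Finset.prod_le_prod' fun b hb => ?_
                rw [if_neg (Finset.ne_of_mem_erase hb)]
                exact key M
            _ = M ^ (Fintype.card W - 1) := by
                rw [Finset.prod_const, Finset.card_erase_of_mem (Finset.mem_univ a),
                  Finset.card_univ]
    _ = Fintype.card W * c * M ^ (Fintype.card W - 1) := by
        rw [Finset.sum_const, Finset.card_univ, smul_eq_mul, mul_assoc]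

/-- the embedding count for graphs with no isolated vertices -/
lemma emb_le {ℓ : ℕ} (hℓ : 3 ≤ ℓ) (r n : ℕ) {W : Type} [Fintype W] [Nonempty W]
    (F : SimpleGraph W) (hF : ∀ a, ∃ b, F.Adj a b) :
    emb F (GG ℓ r n) ≤
      Fintype.card W * (ℓ - 1) * (ℓ + r) ^ (Fintype.card W - 1) := by
  refine le_trans ?_ (count_le (W := W) n (ℓ + r) (ℓ - 1))
  unfold emb
  refine Nat.card_le_card_of_injective (fun f => ⟨f.1, ?_, ?_⟩) ?_
  · intro a
    obtain ⟨b, hb⟩ := hF a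
    exact (GG_adj hℓ (f.2.2 a b hb)).2.1
  · obtain ⟨a⟩ := ‹Nonempty W›
    obtain ⟨b, hb⟩ := hF a
    rcases (GG_adj hℓ (f.2.2 a b hb)).1 with h | h
    exacts [⟨a, h⟩, ⟨b, h⟩]
  · intro f g h
    simp only [Subtype.mk.injEq] at h
    exact Subtype.ext h

/-- real form of the bound -/
lemma bound_real {ℓ : ℕ} (hℓ : 3 ≤ ℓ) {n : ℕ} (hn : 1 ≤ n) (t : ℕ) :
    ((ℓ + rt ℓ n : ℕ) : ℝ) ^ t ≤ ((ℓ + 1) * 2 ^ ℓ : ℝ) ^ t * ((n : ℝ) * pp ℓ n) ^ t := by
  rw [← mul_pow]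
  have h1 : (1 : ℝ) ≤ rt ℓ n := by exact_mod_cast rt_pos hℓ n
  have h2 := rt_le_np hℓ hn
  refine pow_le_pow_left₀ (by positivity) ?_ _
  push_cast
  calc (ℓ : ℝ) + rt ℓ n ≤ (ℓ + 1) * rt ℓ n := by
        have : (0 : ℝ) ≤ ℓ := by positivity
        nlinarith
    _ ≤ (ℓ + 1) * (2 ^ ℓ * (n * pp ℓ n)) := by gcongr
    _ = _ := by ring

lemma desc_lower {n t : ℕ} (ht : 1 ≤ t) (h : t ≤ n) :
    (n : ℝ) ^ t ≤ (t : ℝ) ^ t * (n.descFactorial t : ℝ) := by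
  have h1 : n ≤ t * (n + 1 - t) := by
    obtain ⟨m, rfl⟩ := Nat.exists_eq_add_of_le h
    have : t + m + 1 - t = m + 1 := by omega
    rw [this]; nlinarith
  have h2 : n ^ t ≤ t ^ t * n.descFactorial t := by
    calc n ^ t ≤ (t * (n + 1 - t)) ^ t := Nat.pow_le_pow_left h1 _
      _ = t ^ t * (n + 1 - t) ^ t := by rw [mul_pow]
      _ ≤ _ := Nat.mul_le_mul_left _ (Nat.pow_sub_le_descFactorial n t)
  exact_mod_cast h2

/-- bound on `s_p` for graphs without isolated vertices and at most `|F| - 1` edges -/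
lemma sp_le {ℓ : ℕ} (hℓ : 3 ≤ ℓ) {W : Type} [Fintype W] [Nonempty W]
    (F : SimpleGraph W) (hF : ∀ a, ∃ b, F.Adj a b) (he : F.edgeSet.ncard ≤ Fintype.card W - 1) :
    ∃ K : ℝ, 0 ≤ K ∧ ∀ n, sp F (pp ℓ n) (GG ℓ (rt ℓ n) n) ≤ K := by
  set t := Fintype.card W with ht
  have ht1 : 1 ≤ t := Fintype.card_pos
  refine ⟨(t * (ℓ - 1 : ℕ) : ℝ) * ((ℓ + 1) * 2 ^ ℓ : ℝ) ^ (t - 1) * (t : ℝ) ^ t, by positivity, ?_⟩
  intro n
  have hp := pp_pos hℓ n
  have hp1 := pp_le hℓ n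
  unfold sp
  rw [← ht]
  by_cases hnt : t ≤ n
  · have hn : 1 ≤ n := le_trans ht1 hnt
    have hd : (0 : ℝ) < n.descFactorial t := by
      exact_mod_cast Nat.descFactorial_pos.2 hnt
    rw [div_le_iff₀ (by positivity)]
    have e1 : (emb F (GG ℓ (rt ℓ n) n) : ℝ) ≤
        (t * (ℓ - 1 : ℕ) : ℝ) * ((ℓ + rt ℓ n : ℕ) : ℝ) ^ (t - 1) := by
      exact_mod_cast emb_le hℓ (rt ℓ n) n F hF
    have hn1 : (1 : ℝ) ≤ n := by exact_mod_cast hn
    calc (emb F (GG ℓ (rt ℓ n) n) : ℝ) ≤ _ := e1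
      _ ≤ (t * (ℓ - 1 : ℕ) : ℝ) * (((ℓ + 1) * 2 ^ ℓ : ℝ) ^ (t - 1) *
            ((n : ℝ) * pp ℓ n) ^ (t - 1)) := by
          gcongr; exact bound_real hℓ hn (t - 1)
      _ = (t * (ℓ - 1 : ℕ) : ℝ) * ((ℓ + 1) * 2 ^ ℓ : ℝ) ^ (t - 1) *
            ((n : ℝ) ^ (t - 1) * pp ℓ n ^ (t - 1)) := by rw [mul_pow]; ring
      _ ≤ (t * (ℓ - 1 : ℕ) : ℝ) * ((ℓ + 1) * 2 ^ ℓ : ℝ) ^ (t - 1) *
            ((n : ℝ) ^ t * pp ℓ n ^ F.edgeSet.ncard) := by
          have a1 : (n : ℝ) ^ (t - 1) ≤ (n : ℝ) ^ t := pow_le_pow_right₀ hn1 (by omega)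
          have a2 : pp ℓ n ^ (t - 1) ≤ pp ℓ n ^ F.edgeSet.ncard :=
            pow_le_pow_of_le_one hp.le hp1 he
          gcongr
      _ ≤ (t * (ℓ - 1 : ℕ) : ℝ) * ((ℓ + 1) * 2 ^ ℓ : ℝ) ^ (t - 1) *
            (((t : ℝ) ^ t * (n.descFactorial t : ℝ)) * pp ℓ n ^ F.edgeSet.ncard) := by
          gcongr; exact desc_lower ht1 hnt
      _ = _ := by ring
  · have : n.descFactorial t = 0 := Nat.descFactorial_eq_zero_iff_lt.2 (by omega)
    rw [this]; simp; positivity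

lemma condA {ℓ : ℕ} (hℓ : 3 ≤ ℓ) : CondA (pp ℓ) (fun n => GG ℓ (rt ℓ n) n) := by
  classical
  intro W _ T hT
  haveI : Nonempty W := hT.connected.nonempty
  have hcard := hT.card_edgeFinset
  have hnc : T.edgeSet.ncard = Fintype.card W - 1 := by
    rw [Set.ncard_eq_toFinset_card']
    have : T.edgeSet.toFinset = T.edgeFinset := rfl
    rw [this]; omega
  rcases subsingleton_or_nontrivial W with hs | hs
  · refine ⟨1, ?_⟩
    rintro _ ⟨n, rfl⟩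
    have h1 : Fintype.card W = 1 := by
      exact le_antisymm (Fintype.card_le_one_iff_subsingleton.2 hs) Fintype.card_pos
    simp only [sp, hnc, h1, Nat.sub_self, pow_zero, mul_one, Nat.descFactorial_one]
    have h2 : emb T (GG ℓ (rt ℓ n) n) ≤ n := by
      unfold emb
      calc _ ≤ Nat.card (W → Fin n) := Nat.card_le_card_of_injective _ Subtype.val_injective
        _ = n := by simp [Nat.card_eq_fintype_card, h1]
    rcases Nat.eq_zero_or_pos n with h0 | h0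
    · subst h0; simp
    · rw [div_le_one (by exact_mod_cast h0)]
      exact_mod_cast h2
  · have hF : ∀ a, ∃ b, T.Adj a b := by
      intro a
      have h1 := hT.connected.preconnected.minDegree_pos_of_nontrivial
      have h2 := lt_of_lt_of_le h1 (T.minDegree_le_degree a)
      rwa [SimpleGraph.degree_pos_iff_exists_adj] at h2
    obtain ⟨K, -, hK⟩ := sp_le hℓ T hF hnc.le
    refine ⟨K, ?_⟩
    rintro _ ⟨n, rfl⟩
    exact hK n


/-! ### Theta graphs -/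

lemma pt_inj {k ℓ : ℕ} (hℓ : 3 ≤ ℓ) (i : Fin k) {j j' : ℕ} (hj : j ≤ ℓ) (hj' : j' ≤ ℓ)
    (h : pt k ℓ i j = pt k ℓ i j') : j = j' := by
  unfold pt at h
  split_ifs at h <;> simp_all <;> omega

lemma pt_cross {k ℓ : ℕ} (hℓ : 3 ≤ ℓ) {i i' : Fin k} (hi : i ≠ i') {j j' : ℕ} (hj : j ≤ ℓ)
    (hj' : 0 < j') (hj'' : j' < ℓ) : pt k ℓ i j ≠ pt k ℓ i' j' := by
  intro h
  unfold pt at h
  split_ifs at h <;> simp_all <;> omega

lemma pt_adj {k ℓ : ℕ} (hℓ : 3 ≤ ℓ) (i : Fin k) {j : ℕ} (hj : j < ℓ) :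
    (theta k ℓ).Adj (pt k ℓ i j) (pt k ℓ i (j + 1)) := by
  rw [theta, SimpleGraph.fromRel_adj]
  refine ⟨fun h => ?_, Or.inl ⟨i, j, hj, rfl, rfl⟩⟩
  have := pt_inj hℓ i hj.le (by omega) h
  omega

/-- the `2ℓ`-cycle through the first two paths -/
def zz (k ℓ : ℕ) (i i' : Fin k) (j : ℕ) : Fin 2 ⊕ (Fin k × Fin (ℓ - 1)) :=
  if j ≤ ℓ then pt k ℓ i j else pt k ℓ i' (2 * ℓ - j)

lemma pt_last (k ℓ : ℕ) (hℓ : 3 ≤ ℓ) (i : Fin k) : pt k ℓ i ℓ = Sum.inl 1 := by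
  unfold pt
  rw [if_neg (by omega), dif_neg (by omega)]

lemma zz_adj {k ℓ : ℕ} (hℓ : 3 ≤ ℓ) (i i' : Fin k) {j : ℕ} (hj : j + 1 < 2 * ℓ) :
    (theta k ℓ).Adj (zz k ℓ i i' j) (zz k ℓ i i' (j + 1)) := by
  unfold zz
  by_cases h1 : j < ℓ
  · rw [if_pos h1.le, if_pos (by omega)]
    exact pt_adj hℓ i h1
  · by_cases h2 : j = ℓ
    · rw [if_pos h2.le, if_neg (by omega), h2, pt_last k ℓ hℓ i, ← pt_last k ℓ hℓ i']
      have := pt_adj hℓ i' (j := ℓ - 1) (by omega)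
      have e : ℓ - 1 + 1 = ℓ := by omega
      have e2 : 2 * ℓ - (ℓ + 1) = ℓ - 1 := by omega
      rw [e] at this
      rw [e2]
      exact this.symm
    · rw [if_neg (by omega), if_neg (by omega)]
      have := pt_adj hℓ i' (j := 2 * ℓ - (j + 1)) (by omega)
      have e : 2 * ℓ - (j + 1) + 1 = 2 * ℓ - j := by omega
      rw [e] at this
      exact this.symm

lemma zz_inj {k ℓ : ℕ} (hℓ : 3 ≤ ℓ) {i i' : Fin k} (hi : i ≠ i') {j j' : ℕ} (hj : j < 2 * ℓ)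
    (hj' : j' < 2 * ℓ) (h : zz k ℓ i i' j = zz k ℓ i i' j') : j = j' := by
  unfold zz at h
  by_cases h1 : j ≤ ℓ <;> by_cases h2 : j' ≤ ℓ
  · rw [if_pos h1, if_pos h2] at h
    exact pt_inj hℓ i h1 h2 h
  · rw [if_pos h1, if_neg h2] at h
    exact absurd h (pt_cross hℓ hi h1 (by omega) (by omega))
  · rw [if_neg h1, if_pos h2] at h
    exact absurd h.symm (pt_cross hℓ hi h2 (by omega) (by omega))
  · rw [if_neg h1, if_neg h2] at h
    have := pt_inj hℓ i' (by omega) (by omega) h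
    omega

lemma emb_theta {ℓ : ℕ} (hℓ : 3 ≤ ℓ) {k : ℕ} (hk : 2 ≤ k) (r n : ℕ) :
    emb (theta k ℓ) (GG ℓ r n) = 0 := by
  unfold emb
  rw [Nat.card_eq_zero]
  left
  constructor
  rintro ⟨f, hinj, hf⟩
  let i : Fin k := ⟨0, by omega⟩
  let i' : Fin k := ⟨1, by omega⟩
  have hi : i ≠ i' := by simp [i, i']
  have key : ∀ a : Fin ℓ, ∃ b : ℕ, (b = 2 * (a : ℕ) ∨ b = 2 * (a : ℕ) + 1) ∧
      ((f (zz k ℓ i i' b) : Fin n) : ℕ) < ℓ - 1 := by
    intro a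
    have h1 := hf _ _ (zz_adj hℓ i i' (j := 2 * (a : ℕ)) (by omega))
    rcases (GG_adj hℓ h1).1 with h | h
    exacts [⟨_, Or.inl rfl, h⟩, ⟨_, Or.inr rfl, h⟩]
  choose b hb hlt using key
  have hinj2 : Function.Injective fun a : Fin ℓ => (⟨_, hlt a⟩ : Fin (ℓ - 1)) := by
    intro a a' h
    simp only [Fin.mk.injEq] at h
    have h2 := hinj (Fin.ext h)
    have h3 := zz_inj hℓ hi (by rcases hb a with h | h <;> omega)
      (by rcases hb a' with h | h <;> omega) h2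
    apply Fin.ext
    rcases hb a with h4 | h4 <;> rcases hb a' with h5 | h5 <;> omega
  have := Fintype.card_le_of_injective _ hinj2
  simp at this
  omega

lemma condTheta {ℓ : ℕ} (hℓ : 3 ≤ ℓ) : CondTheta ℓ (pp ℓ) (fun n => GG ℓ (rt ℓ n) n) := by
  classical
  intro k hk
  rcases Nat.lt_or_ge k 2 with h | h
  · obtain rfl : k = 1 := by omega
    have hW : Fintype.card (Fin 2 ⊕ (Fin 1 × Fin (ℓ - 1))) = ℓ + 1 := by simp; omega
    have hedge : (theta 1 ℓ).edgeSet.ncard ≤ ℓ := by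
      have hsub : (theta 1 ℓ).edgeSet ⊆
          (fun j : ℕ => s(pt 1 ℓ 0 j, pt 1 ℓ 0 (j + 1))) '' (Finset.range ℓ : Set ℕ) := by
        intro e he
        induction e using Sym2.ind with
        | _ a b =>
          rw [SimpleGraph.mem_edgeSet, theta, SimpleGraph.fromRel_adj] at he
          rcases he.2 with ⟨i, j, hj, ha, hb⟩ | ⟨i, j, hj, hb, ha⟩
          · obtain rfl : i = 0 := Subsingleton.elim _ _
            exact ⟨j, by simpa using hj, by simp [ha, hb]⟩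
          · obtain rfl : i = 0 := Subsingleton.elim _ _
            exact ⟨j, by simpa using hj, by simp only [ha, hb]; exact Sym2.eq_swap⟩
      calc _ ≤ _ := Set.ncard_le_ncard hsub ((Finset.finite_toSet _).image _)
        _ ≤ (Finset.range ℓ : Set ℕ).ncard := Set.ncard_image_le (Finset.finite_toSet _)
        _ = ℓ := by rw [Set.ncard_coe_finset, Finset.card_range]
    have hF : ∀ a, ∃ b, (theta 1 ℓ).Adj a b := by
      have hall : ∀ a, ∃ j, j ≤ ℓ ∧ a = pt 1 ℓ 0 j := by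
        rintro (a | ⟨i, a⟩)
        · fin_cases a
          · exact ⟨0, by omega, by simp [pt]⟩
          · exact ⟨ℓ, le_rfl, (pt_last 1 ℓ hℓ 0).symm⟩
        · obtain rfl : i = 0 := Subsingleton.elim _ _
          refine ⟨a + 1, by omega, ?_⟩
          unfold pt
          rw [if_neg (by omega), dif_pos (by simp)]
          simp
      intro a
      obtain ⟨j, hj, rfl⟩ := hall a
      rcases Nat.lt_or_ge j ℓ with h1 | h1
      · exact ⟨_, pt_adj hℓ 0 h1⟩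
      · have h2 := pt_adj (k := 1) hℓ 0 (j := j - 1) (by omega)
        have e : j - 1 + 1 = j := by omega
        rw [e] at h2
        exact ⟨_, h2.symm⟩
    obtain ⟨K, hK0, hK⟩ := sp_le hℓ (theta 1 ℓ) hF (by rw [hW]; simpa using hedge)
    refine IsBigO.of_bound K (Eventually.of_forall fun n => ?_)
    have h0 : 0 ≤ sp (theta 1 ℓ) (pp ℓ n) (GG ℓ (rt ℓ n) n) := by
      have := pp_pos hℓ n
      unfold sp; positivity
    rw [Real.norm_of_nonneg h0]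
    simpa using hK n
  · have : (fun n => sp (theta k ℓ) (pp ℓ n) (GG ℓ (rt ℓ n) n)) = fun _ => (0 : ℝ) := by
      funext n
      simp [sp, emb_theta hℓ h]
    rw [this]
    exact isBigO_zero _ _


/-! ### Condition (B) -/

lemma sum_paths_le {ℓ : ℕ} (hℓ : 3 ≤ ℓ) (r n t : ℕ) (ht : 1 ≤ t) :
    ∑ q : Fin n × Fin n, paths (GG ℓ r n) t q.1 q.2 ≤ (t + 1) * (ℓ - 1) * (ℓ + r) ^ t := by
  classical
  have hS : ∀ q : Fin n × Fin n, paths (GG ℓ r n) t q.1 q.2 =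
      ((Finset.univ.filter fun x : Fin (t + 1) → Fin n => Function.Injective x ∧
        ∀ i : Fin t, (GG ℓ r n).Adj (x i.castSucc) (x i.succ)).filter
          fun x => (x 0, x (Fin.last t)) = q).card := by
    intro q
    unfold paths
    rw [Nat.card_eq_fintype_card, Fintype.card_subtype, Finset.filter_filter]
    congr 1
    ext x
    simp only [Finset.mem_filter, Finset.mem_univ, true_and, Prod.ext_iff]
    tauto
  simp_rw [hS]
  rw [← Finset.card_eq_sum_card_fiberwise (fun x _ => Finset.mem_univ _)]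
  have h1 := count_le (W := Fin (t + 1)) n (ℓ + r) (ℓ - 1)
  simp only [Fintype.card_fin, Nat.add_sub_cancel] at h1
  refine le_trans ?_ h1
  rw [Nat.card_eq_fintype_card, Fintype.card_subtype]
  refine Finset.card_le_card fun x hx => ?_
  rw [Finset.mem_filter] at hx ⊢
  refine ⟨Finset.mem_univ _, ?_, ?_⟩
  · intro a
    rcases Fin.eq_castSucc_or_eq_last a with ⟨i, rfl⟩ | rfl
    · exact (GG_adj hℓ (hx.2.2 i)).2.1
    · have h2 := (GG_adj hℓ (hx.2.2 ⟨t - 1, by omega⟩)).2.2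
      have e : (⟨t - 1, by omega⟩ : Fin t).succ = Fin.last t := by
        ext; simp; omega
      rwa [e] at h2
  · rcases (GG_adj hℓ (hx.2.2 ⟨0, by omega⟩)).1 with h | h
    exacts [⟨_, h⟩, ⟨_, h⟩]

lemma moment_nonneg {n : ℕ} (G : SimpleGraph (Fin n)) (t k : ℕ) : 0 ≤ moment G t k := by
  unfold moment; positivity

lemma condB {ℓ : ℕ} (hℓ : 3 ≤ ℓ) : CondB ℓ (pp ℓ) (fun n => GG ℓ (rt ℓ n) n) := by
  classical
  refine IsBigO.of_bound (((ℓ * (ℓ - 1 : ℕ) : ℝ) * ((ℓ + 1) * 2 ^ ℓ : ℝ) ^ (ℓ - 1)) ^ 2) ?_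
  filter_upwards [eventually_ge_atTop 1] with n hn
  have hp := pp_pos hℓ n
  rw [Real.norm_of_nonneg (moment_nonneg _ _ _), Real.norm_of_nonneg (by positivity)]
  have h1 : moment (GG ℓ (rt ℓ n) n) (ℓ - 1) 2 ≤
      ((∑ q : Fin n × Fin n, paths (GG ℓ (rt ℓ n) n) (ℓ - 1) q.1 q.2 : ℕ) : ℝ) ^ 2 := by
    push_cast
    calc moment (GG ℓ (rt ℓ n) n) (ℓ - 1) 2 ≤
        ∑ u : Fin n, ∑ v : Fin n, (paths (GG ℓ (rt ℓ n) n) (ℓ - 1) u v : ℝ) ^ 2 := by
          unfold moment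
          refine Finset.sum_le_sum fun u _ => ?_
          exact Finset.sum_le_sum_of_subset_of_nonneg (Finset.erase_subset _ _)
            fun _ _ _ => by positivity
      _ = ∑ q : Fin n × Fin n, (paths (GG ℓ (rt ℓ n) n) (ℓ - 1) q.1 q.2 : ℝ) ^ 2 := by
          rw [Fintype.sum_prod_type]
      _ ≤ _ := Finset.sum_sq_le_sq_sum_of_nonneg (fun _ _ => by positivity)
  have h2 := sum_paths_le hℓ (rt ℓ n) n (ℓ - 1) (by omega)
  have e : ℓ - 1 + 1 = ℓ := by omega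
  rw [e] at h2
  have h3 : ((∑ q : Fin n × Fin n, paths (GG ℓ (rt ℓ n) n) (ℓ - 1) q.1 q.2 : ℕ) : ℝ) ≤
      (ℓ * (ℓ - 1 : ℕ) : ℝ) * ((ℓ + rt ℓ n : ℕ) : ℝ) ^ (ℓ - 1) := by exact_mod_cast h2
  calc moment (GG ℓ (rt ℓ n) n) (ℓ - 1) 2 ≤ _ := h1
    _ ≤ ((ℓ * (ℓ - 1 : ℕ) : ℝ) * (((ℓ + 1) * 2 ^ ℓ : ℝ) ^ (ℓ - 1) *
          ((n : ℝ) * pp ℓ n) ^ (ℓ - 1))) ^ 2 := by
        refine pow_le_pow_left₀ (by positivity) (h3.trans ?_) 2
        gcongr
        exact bound_real hℓ hn (ℓ - 1)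
    _ = _ := by
        have e2 : 2 * ℓ - 2 = (ℓ - 1) * 2 := by omega
        rw [e2, pow_mul, pow_mul, mul_pow ((n : ℝ))]
        ring

/-! ### Condition (C) -/

lemma vol_le (a : ℝ) (ha : 0 ≤ a) :
    volume {x : unitInterval | (x : ℝ) ≤ a} ≤ ENNReal.ofReal a := by
  by_cases h : a ≤ 1
  · have : {x : unitInterval | (x : ℝ) ≤ a} = Set.Iic ⟨a, ha, h⟩ := by
      ext x; simp [← Subtype.coe_le_coe]
    rw [this, unitInterval.volume_Iic]
  · calc _ ≤ (1 : ℝ≥0∞) := prob_le_one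
      _ ≤ ENNReal.ofReal a := by
        rw [ENNReal.one_le_ofReal]; linarith

lemma kerG_le {ℓ : ℕ} (hℓ : 3 ≤ ℓ) {r n : ℕ} (hn : 1 ≤ n) (p : ℝ) (hp : 0 < p)
    (x y : unitInterval) :
    ‖kerG p (GG ℓ r n) x y‖ₑ ≤
      ENNReal.ofReal (1 / p) *
        (({x : unitInterval | (x : ℝ) ≤ (ℓ + r : ℕ) / n} ×ˢ
            {x : unitInterval | (x : ℝ) ≤ (ℓ - 1 : ℕ) / n}).indicator 1 (x, y) +
          ({x : unitInterval | (x : ℝ) ≤ (ℓ - 1 : ℕ) / n} ×ˢ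
            {x : unitInterval | (x : ℝ) ≤ (ℓ + r : ℕ) / n}).indicator 1 (x, y)) := by
  classical
  have hn' : (0 : ℝ) < n := by exact_mod_cast hn
  unfold kerG
  split_ifs with h
  · obtain ⟨i, j, hi, hj, hij⟩ := h
    have hle : ∀ (z : unitInterval) (i : Fin n) (m : ℕ), ⌈(n : ℝ) * z⌉ = ((i : ℕ) : ℤ) + 1 →
        (i : ℕ) < m → (z : ℝ) ≤ (m : ℝ) / n := by
      intro z i m hz hm
      rw [le_div_iff₀ hn']
      have h1 := Int.le_ceil ((n : ℝ) * z)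
      rw [hz] at h1
      push_cast at h1
      have h2 : ((i : ℕ) : ℝ) + 1 ≤ m := by exact_mod_cast hm
      linarith
    obtain ⟨h1, h2, h3⟩ := GG_adj hℓ hij
    have e : ‖1 / p‖ₑ = ENNReal.ofReal (1 / p) := by
      rw [Real.enorm_eq_ofReal (by positivity)]
    rw [e]
    refine le_mul_of_one_le_right bot_le ?_
    rcases h1 with h1 | h1
    · refine le_trans ?_ (le_add_left le_rfl)
      rw [Set.indicator_of_mem]
      · simp
      · exact ⟨hle x i _ hi h1, hle y j _ hj h3⟩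
    · refine le_trans ?_ (le_add_right le_rfl)
      rw [Set.indicator_of_mem]
      · simp
      · exact ⟨hle x i _ hi h2, hle y j _ hj h1⟩
  · simp

lemma cut_le {ℓ : ℕ} (hℓ : 3 ≤ ℓ) {r n : ℕ} (hn : 1 ≤ n) (p : ℝ) (hp : 0 < p) :
    dcut p (GG ℓ r n) (fun _ _ => 0) ≤
      ENNReal.ofReal (2 * (1 / p) * ((ℓ + r : ℕ) / n) * ((ℓ - 1 : ℕ) / n)) := by
  unfold dcut
  refine iInf₂_le_of_le (MeasurableEquiv.refl _) (MeasurePreserving.id _) ?_
  unfold cutNorm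
  refine iSup₂_le fun S hS => iSup₂_le fun T hT => ?_
  simp only [sub_zero]
  set A : Set unitInterval := {x : unitInterval | (x : ℝ) ≤ (ℓ + r : ℕ) / n} with hA
  set B : Set unitInterval := {x : unitInterval | (x : ℝ) ≤ (ℓ - 1 : ℕ) / n} with hB
  have mA : MeasurableSet A := measurableSet_le (by fun_prop) measurable_const
  have mB : MeasurableSet B := measurableSet_le (by fun_prop) measurable_const
  calc ‖∫ z in S ×ˢ T, kerG p (GG ℓ r n) z.1 z.2‖ₑ ≤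
        ∫⁻ z in S ×ˢ T, ‖kerG p (GG ℓ r n) z.1 z.2‖ₑ := enorm_integral_le_lintegral_enorm _
    _ ≤ ∫⁻ z : unitInterval × unitInterval, ‖kerG p (GG ℓ r n) z.1 z.2‖ₑ :=
        setLIntegral_le_lintegral _ _
    _ ≤ ∫⁻ z : unitInterval × unitInterval, ENNReal.ofReal (1 / p) *
          ((A ×ˢ B).indicator 1 z + (B ×ˢ A).indicator 1 z) :=
        lintegral_mono fun z => kerG_le hℓ hn p hp z.1 z.2
    _ = ENNReal.ofReal (1 / p) * (volume A * volume B + volume B * volume A) := by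
        rw [lintegral_const_mul _ (by
          exact (measurable_one.indicator (mA.prod mB)).add
            (measurable_one.indicator (mB.prod mA)))]
        rw [lintegral_add_left (measurable_one.indicator (mA.prod mB)),
          lintegral_indicator_one (mA.prod mB), lintegral_indicator_one (mB.prod mA)]
        rw [Measure.volume_eq_prod, Measure.prod_prod, Measure.prod_prod]
    _ ≤ ENNReal.ofReal (1 / p) * (ENNReal.ofReal ((ℓ + r : ℕ) / n) *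
          ENNReal.ofReal ((ℓ - 1 : ℕ) / n) + ENNReal.ofReal ((ℓ - 1 : ℕ) / n) *
          ENNReal.ofReal ((ℓ + r : ℕ) / n)) := by
        have a1 := vol_le (((ℓ + r : ℕ) : ℝ) / n) (by positivity)
        have a2 := vol_le (((ℓ - 1 : ℕ) : ℝ) / n) (by positivity)
        gcongr
    _ = _ := by
        rw [← ENNReal.ofReal_mul (by positivity), ← ENNReal.ofReal_mul (by positivity),
          ← ENNReal.ofReal_add (by positivity) (by positivity),
          ← ENNReal.ofReal_mul (by positivity)]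
        congr 1
        ring

lemma condC {ℓ : ℕ} (hℓ : 3 ≤ ℓ) {C : ℝ} (hC : 0 < C) :
    CondC C (pp ℓ) (fun n => GG ℓ (rt ℓ n) n) := by
  refine ⟨fun _ _ => 0, ⟨measurable_const, fun _ _ => rfl, fun _ _ => ⟨le_rfl, hC.le⟩⟩, ?_⟩
  have hlim : Tendsto (fun n : ℕ => ENNReal.ofReal
      ((2 * (ℓ + 1) * (ℓ - 1 : ℕ) * 2 ^ ℓ : ℝ) / n)) atTop (𝓝 0) := by
    rw [← ENNReal.ofReal_zero]
    exact (ENNReal.continuous_ofReal.tendsto 0).comp (tendsto_const_div_atTop_nhds_zero_nat _)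
  refine tendsto_of_tendsto_of_tendsto_of_le_of_le' tendsto_const_nhds hlim
    (Eventually.of_forall fun n => bot_le) ?_
  filter_upwards [eventually_ge_atTop 1] with n hn
  refine (cut_le hℓ hn (pp ℓ n) (pp_pos hℓ n)).trans (ENNReal.ofReal_le_ofReal ?_)
  have hn' : (0 : ℝ) < n := by exact_mod_cast hn
  have h0 : (0 : ℝ) < rt ℓ n := by exact_mod_cast rt_pos hℓ n
  have h00 : (1 : ℝ) ≤ rt ℓ n := by exact_mod_cast rt_pos hℓ n
  have h1 : (rt ℓ n : ℝ) ^ ℓ ≤ 2 ^ ℓ * n := by exact_mod_cast rt_pow_le hℓ hn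
  have h2 : ((ℓ + rt ℓ n : ℕ) : ℝ) ≤ (ℓ + 1) * rt ℓ n := by
    push_cast
    have : (0 : ℝ) ≤ ℓ := by positivity
    nlinarith
  unfold pp
  rw [one_div_one_div]
  calc 2 * (rt ℓ n : ℝ) ^ (ℓ - 1) * (((ℓ + rt ℓ n : ℕ) : ℝ) / n) * (((ℓ - 1 : ℕ) : ℝ) / n)
      ≤ 2 * (rt ℓ n : ℝ) ^ (ℓ - 1) * (((ℓ + 1) * rt ℓ n) / n) * (((ℓ - 1 : ℕ) : ℝ) / n) := by
        gcongr
    _ = 2 * (ℓ + 1) * (ℓ - 1 : ℕ) * ((rt ℓ n : ℝ) ^ (ℓ - 1) * rt ℓ n) / (n * n) := by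
        field_simp
    _ = 2 * (ℓ + 1) * (ℓ - 1 : ℕ) * (rt ℓ n : ℝ) ^ ℓ / (n * n) := by
        have e : (rt ℓ n : ℝ) ^ (ℓ - 1) * rt ℓ n = (rt ℓ n : ℝ) ^ ℓ := by
          rw [← pow_succ]; congr 1; omega
        rw [e]
    _ ≤ 2 * (ℓ + 1) * (ℓ - 1 : ℕ) * (2 ^ ℓ * n) / (n * n) := by gcongr
    _ = _ := by field_simp

/-! ### Failure of (D) -/

lemma paths_ge {ℓ : ℕ} (hℓ : 3 ≤ ℓ) {r n : ℕ} (hn : ℓ + r ≤ n) :
    r ≤ paths (GG ℓ r n) ℓ ⟨ℓ - 1, by omega⟩ ⟨0, by omega⟩ := by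
  classical
  have hn0 : 0 < n := by omega
  let X : Fin r → Fin (ℓ + 1) → Fin n := fun y j =>
    if h : (j : ℕ) + 2 ≤ ℓ then ⟨ℓ - 1 - j, by omega⟩
    else if (j : ℕ) + 1 = ℓ then ⟨ℓ + y, by omega⟩ else ⟨0, hn0⟩
  have hX : ∀ y j, ((X y j : Fin n) : ℕ) =
      if (j : ℕ) + 2 ≤ ℓ then ℓ - 1 - j else if (j : ℕ) + 1 = ℓ then ℓ + y else 0 := by
    intro y j
    simp only [X]
    split_ifs <;> rfl
  have key : Fintype.card (Fin r) ≤ paths (GG ℓ r n) ℓ ⟨ℓ - 1, by omega⟩ ⟨0, by omega⟩ := by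
    unfold paths
    rw [← Nat.card_eq_fintype_card]
    refine Nat.card_le_card_of_injective (fun y => ⟨X y, ?_, ?_, ?_, ?_⟩) ?_
    · intro j j' h
      have h1 := congrArg (fun z : Fin n => (z : ℕ)) h
      simp only [hX] at h1
      apply Fin.ext
      split_ifs at h1 <;> omega
    · apply Fin.ext
      have e := hX y 0
      rw [Fin.val_zero] at e
      refine e.trans ?_
      show (if 0 + 2 ≤ ℓ then ℓ - 1 - 0 else if 0 + 1 = ℓ then ℓ + (y : ℕ) else 0) = ℓ - 1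
      rw [if_pos (by omega : 0 + 2 ≤ ℓ)]; omega
    · apply Fin.ext
      have e := hX y (Fin.last ℓ)
      rw [Fin.val_last] at e
      refine e.trans ?_
      show (if ℓ + 2 ≤ ℓ then ℓ - 1 - ℓ else if ℓ + 1 = ℓ then ℓ + (y : ℕ) else 0) = 0
      rw [if_neg (by omega), if_neg (by omega)]
    · intro i
      rw [GG, SimpleGraph.fromRel_adj]
      have e1 := hX y i.castSucc
      have e2 := hX y i.succ
      simp only [Fin.val_castSucc, Fin.val_succ] at e1 e2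
      refine ⟨fun h => ?_, ?_⟩
      · have h1 : ((X y i.castSucc : Fin n) : ℕ) = (X y i.succ : Fin n) :=
          congrArg (fun z : Fin n => (z : ℕ)) h
        rw [e1, e2] at h1
        split_ifs at h1 <;> omega
      · rw [e1, e2]
        split_ifs <;> omega
    · intro y y' h
      have h1 := congrArg (fun z => ((z.1 (⟨ℓ - 1, by omega⟩ : Fin (ℓ + 1)) : Fin n) : ℕ)) h
      simp only [hX] at h1
      rw [if_neg (by omega), if_pos (by omega), if_neg (by omega), if_pos (by omega)] at h1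
      apply Fin.ext
      omega
  simpa using key

lemma not_condD {ℓ : ℕ} (hℓ : 3 ≤ ℓ) : ¬ CondD ℓ (pp ℓ) (fun n => GG ℓ (rt ℓ n) n) := by
  intro hD
  obtain ⟨K, hK⟩ := (hD (2 * ℓ + 1) (by omega)).bound
  rw [eventually_atTop] at hK
  obtain ⟨N, hN⟩ := hK
  obtain ⟨r, hr⟩ : ∃ r : ℕ, N ≤ r ∧ ℓ ≤ r ∧ 3 ≤ r ∧ K < r := by
    obtain ⟨r, hr⟩ := exists_nat_gt (max K (max (N : ℝ) (max ℓ 3)))
    refine ⟨r, ?_, ?_, ?_, ?_⟩
    · have : (N : ℝ) < r := lt_of_le_of_lt (le_trans (le_max_left _ _) (le_max_right _ _)) hr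
      exact_mod_cast this.le
    · have : (ℓ : ℝ) < r := lt_of_le_of_lt (le_trans (le_trans (le_max_left _ _)
        (le_max_right _ _)) (le_max_right _ _)) hr
      exact_mod_cast this.le
    · have : (3 : ℝ) < r := lt_of_le_of_lt (le_trans (le_trans (le_max_right _ _)
        (le_max_right _ _)) (le_max_right _ _)) hr
      exact_mod_cast this.le
    · exact lt_of_le_of_lt (le_max_left _ _) hr
  obtain ⟨h1, h2, h3, h4⟩ := hr
  set n := r ^ ℓ with hn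
  have hrt : rt ℓ n = r := rt_pow hℓ (by omega)
  have hrn : ℓ + r ≤ n := by
    calc ℓ + r ≤ 3 * r := by omega
      _ ≤ r * r := by gcongr
      _ = r ^ 2 := by ring
      _ ≤ r ^ ℓ := Nat.pow_le_pow_right (by omega) (by omega)
  have hNn : N ≤ n := by omega
  have h5 := hN n hNn
  simp only [hrt] at h5
  have hr0 : (0 : ℝ) < r := by exact_mod_cast (by omega : 0 < r)
  have hpp : pp ℓ n = 1 / (r : ℝ) ^ (ℓ - 1) := by rw [pp, hrt]
  rw [Real.norm_of_nonneg (moment_nonneg _ _ _), Real.norm_of_nonneg (by rw [hpp]; positivity)] at h5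
  have h6 : (r : ℝ) ^ (2 * ℓ + 1) ≤ moment (GG ℓ r n) ℓ (2 * ℓ + 1) := by
    have hne : (⟨0, by omega⟩ : Fin n) ∈ Finset.univ.erase (⟨ℓ - 1, by omega⟩ : Fin n) := by
      rw [Finset.mem_erase]
      refine ⟨?_, Finset.mem_univ _⟩
      intro h
      have := congrArg (fun z : Fin n => (z : ℕ)) h
      simp only at this
      omega
    calc (r : ℝ) ^ (2 * ℓ + 1) ≤
        (paths (GG ℓ r n) ℓ ⟨ℓ - 1, by omega⟩ ⟨0, by omega⟩ : ℝ) ^ (2 * ℓ + 1) := by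
          refine pow_le_pow_left₀ hr0.le ?_ _
          exact_mod_cast paths_ge hℓ hrn
      _ ≤ ∑ v ∈ Finset.univ.erase (⟨ℓ - 1, by omega⟩ : Fin n),
          (paths (GG ℓ r n) ℓ ⟨ℓ - 1, by omega⟩ v : ℝ) ^ (2 * ℓ + 1) :=
          Finset.single_le_sum (f := fun v => (paths (GG ℓ r n) ℓ ⟨ℓ - 1, by omega⟩ v : ℝ) ^
            (2 * ℓ + 1)) (fun _ _ => by positivity) hne
      _ ≤ _ := by
          unfold moment
          exact Finset.single_le_sum (f := fun u => ∑ v ∈ Finset.univ.erase u,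
            (paths (GG ℓ r n) ℓ u v : ℝ) ^ (2 * ℓ + 1)) (fun _ _ => by positivity)
            (Finset.mem_univ (⟨ℓ - 1, by omega⟩ : Fin n))
  have h7 : (n : ℝ) ^ (2 + (2 * ℓ + 1) * (ℓ - 1)) * pp ℓ n ^ ((2 * ℓ + 1) * ℓ) =
      (r : ℝ) ^ (2 * ℓ) := by
    rw [hpp, hn, one_div, inv_pow, ← div_eq_mul_inv]
    push_cast
    rw [← pow_mul, ← pow_mul, div_eq_iff (by positivity), ← pow_add]
    congr 1
    ring
  rw [h7] at h5
  have h8 : (r : ℝ) ^ (2 * ℓ + 1) ≤ K * (r : ℝ) ^ (2 * ℓ) := h6.trans h5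
  rw [pow_succ'] at h8
  have := le_of_mul_le_mul_right h8 (by positivity)
  linarith

/-- **MP_cf0832_co, Q1 is false, for every `ℓ ≥ 3` and every `C > 0`.** -/
theorem result :
    (∀ (C : ℝ), 0 < C → ∀ ℓ : ℕ, 3 ≤ ℓ →
      ∃ (p : ℕ → ℝ) (G : (n : ℕ) → SimpleGraph (Fin n)), (∀ n, 0 < p n ∧ p n ≤ 1) ∧
        CondA p G ∧ CondB ℓ p G ∧ CondC C p G ∧ CondTheta ℓ p G ∧ ¬ CondD ℓ p G) ∧ ¬ Q1 := by
  have main : ∀ (C : ℝ), 0 < C → ∀ ℓ : ℕ, 3 ≤ ℓ →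
      ∃ (p : ℕ → ℝ) (G : (n : ℕ) → SimpleGraph (Fin n)), (∀ n, 0 < p n ∧ p n ≤ 1) ∧
        CondA p G ∧ CondB ℓ p G ∧ CondC C p G ∧ CondTheta ℓ p G ∧ ¬ CondD ℓ p G :=
    fun C hC ℓ hℓ => ⟨pp ℓ, fun n => GG ℓ (rt ℓ n) n, fun n => ⟨pp_pos hℓ n, pp_le hℓ n⟩,
      condA hℓ, condB hℓ, condC hℓ hC, condTheta hℓ, not_condD hℓ⟩
  refine ⟨main, fun hQ => ?_⟩
  obtain ⟨p, G, hp, hA, hB, hC, hT, hD⟩ := main 1 one_pos 3 le_rfl
  exact hD (hQ 1 one_pos 3 le_rfl p hp G hA hB hC hT)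

end Pool.Agent.Results.MP_cf0832_co.ThetaVsMoments
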